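import Pool.Agent.Work.MP_a9fb1f_gt.Final

/-! A five-dimensional noncollapsed Ricci limit space whose set of points with two
non-homeomorphic tangent cones has positive Hausdorff dimension. -/

set_option autoImplicit false

open Pool.Agent.Work.MP_a9fb1f_gt

theorem Pool.Agent.Results.MP_a9fb1f_gt.Counterexample.result :
    ∃ X : PtSpace, IsRicciLimit 5 X ∧
      0 < dimH {x : X.X | ∃ Y Y' : PtSpace, IsTangentCone x Y ∧ IsTangentCone x Y' ∧
        IsEmpty (Y.X ≃ₜ Y'.X)} :=
  main
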